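import Pool.Agent.Q19.Transv

/-!
# A block diagonal averaging matrix whose permanent is not a common transversal probability

For `T = diag(T_1, T_2, T_5)` the permanent is `12 / 625`. If `P_G(H, K) = 12 / 625`, the orbits of
`K` on the left cosets of `H` have sizes `5, 2, 1, ..., 1`, with `f` ones, and `(G : H) = f + 7`.
Let `L = K ∩ G_b` with `b` in the orbit of size two. It has index two in `K` and in `G_b`, so the
normalizer `M` of `L` contains both, and it permutes the `f + 2` fixed points of `L`. Hence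
`m = |M| / |K|` divides `f + 2` and `f + 7`, so `m = 5`. But `f = 0` or `f ∣ 7`.
-/

namespace Pool.Agent.Results.MP_e51b07_al.NoGroupValue

open Pool.Agent.Q19.Transv

/-! ### The permanent -/

/-- The block diagonal matrix with blocks of sizes `t i` and all entries of the `i`-th block equal
to `1 / t i`. -/
def T {s : ℕ} (t : Fin s → ℕ) : Matrix (Σ i, Fin (t i)) (Σ i, Fin (t i)) ℚ :=
  Matrix.blockDiagonal' fun i => Matrix.of fun _ _ => 1 / (t i : ℚ)

lemma T_apply {s : ℕ} (t : Fin s → ℕ) (x y : Σ i, Fin (t i)) :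
    T t x y = if x.1 = y.1 then 1 / (t x.1 : ℚ) else 0 := by
  obtain ⟨i, x⟩ := x
  obtain ⟨j, y⟩ := y
  unfold T
  rw [Matrix.blockDiagonal'_apply]
  by_cases h : i = j
  · subst h
    simp
  · simp [h]

lemma permanent_T {s : ℕ} (t : Fin s → ℕ) :
    (T t).permanent = ∏ i, fac (t i) := by
  classical
  have h1 : (T t).permanent = ∑ σ : Equiv.Perm (Σ i, Fin (t i)),
      if ∀ a, a.1 = (σ a).1 then ∏ a : (Σ i, Fin (t i)), (1 / (t a.1 : ℚ)) else 0 := by
    unfold Matrix.permanent
    refine Finset.sum_congr rfl fun σ _ => ?_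
    simp_rw [T_apply]
    by_cases h : ∀ a, a.1 = (σ a).1
    · rw [if_pos h]
      refine Finset.prod_congr rfl fun a _ => ?_
      rw [if_pos (h a).symm, ← h a]
    · rw [if_neg h]
      push Not at h
      obtain ⟨a, ha⟩ := h
      exact Finset.prod_eq_zero (Finset.mem_univ a) (if_neg (Ne.symm ha))
  rw [h1, ← Finset.sum_filter, Finset.sum_const]
  have h2 := card_compat (A := Σ i, Fin (t i)) (B := Σ i, Fin (t i)) (C := Fin s) Sigma.fst Sigma.fst (fun _ => rfl)
  have h3 : ∀ i, Fintype.card {a : (Σ i, Fin (t i)) // a.1 = i} = t i := by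
    intro i
    rw [Fintype.card_congr (Equiv.sigmaSubtype i), Fintype.card_fin]
  simp_rw [h3] at h2
  rw [h2, Fintype.prod_sigma]
  simp only [Finset.prod_const, Finset.card_univ, Fintype.card_fin, nsmul_eq_mul]
  push_cast
  rw [← Finset.prod_mul_distrib]
  refine Finset.prod_congr rfl fun i _ => ?_
  unfold fac
  rw [one_div, inv_pow]
  rfl

lemma permanent_125 : (T ![1, 2, 5]).permanent = 12 / 625 := by
  rw [permanent_T]
  simp [Fin.prod_univ_succ, fac, Nat.factorial]
  norm_num


/-! ### The arithmetic -/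

lemma fac_nonneg (t : ℕ) : 0 ≤ fac t := by unfold fac; positivity

lemma fac_succ_le (t : ℕ) : fac (t + 1) ≤ fac t := by
  unfold fac
  rcases Nat.eq_zero_or_pos t with h | h
  · subst h; norm_num
  · have ht : (0 : ℚ) < t := by exact_mod_cast h
    rw [Nat.factorial_succ, div_le_div_iff₀ (by positivity) (by positivity)]
    push_cast
    have h1 : (t : ℚ) ^ t ≤ ((t : ℚ) + 1) ^ t := pow_le_pow_left₀ ht.le (by linarith) t
    have h2 : (0 : ℚ) ≤ ((t : ℚ) + 1) * (t.factorial : ℚ) := by positivity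
    calc ((t : ℚ) + 1) * (t.factorial : ℚ) * (t : ℚ) ^ t ≤ ((t : ℚ) + 1) * (t.factorial : ℚ) * ((t : ℚ) + 1) ^ t :=
          mul_le_mul_of_nonneg_left h1 h2
      _ = (t.factorial : ℚ) * ((t : ℚ) + 1) ^ (t + 1) := by ring

lemma fac_anti {s t : ℕ} (h : s ≤ t) : fac t ≤ fac s := antitone_nat_of_succ_le fac_succ_le h

lemma fac_le_one (t : ℕ) : fac t ≤ 1 := by
  have := fac_anti (Nat.zero_le t)
  have h0 : fac 0 = 1 := by norm_num [fac]
  rwa [h0] at this

lemma arith (s2 s3 s4 s5 : ℕ)
    (h : fac 2 ^ s2 * (fac 3 ^ s3 * (fac 4 ^ s4 * fac 5 ^ s5)) = 12 / 625) :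
    s2 = 1 ∧ s3 = 0 ∧ s4 = 0 ∧ s5 = 1 := by
  have e2 : fac 2 = 1 / 2 := by norm_num [fac, Nat.factorial]
  have e3 : fac 3 = 2 / 9 := by norm_num [fac, Nat.factorial]
  have e4 : fac 4 = 3 / 32 := by norm_num [fac, Nat.factorial]
  have e5 : fac 5 = 24 / 625 := by norm_num [fac, Nat.factorial]
  rw [e2, e3, e4, e5] at h
  have hp2 : (1 / 2 : ℚ) ^ s2 ≤ 1 := pow_le_one₀ (by norm_num) (by norm_num)
  have hp3 : (2 / 9 : ℚ) ^ s3 ≤ 1 := pow_le_one₀ (by norm_num) (by norm_num)
  have hp4 : (3 / 32 : ℚ) ^ s4 ≤ 1 := pow_le_one₀ (by norm_num) (by norm_num)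
  have hp5 : (24 / 625 : ℚ) ^ s5 ≤ 1 := pow_le_one₀ (by norm_num) (by norm_num)
  have hn2 : (0 : ℚ) < (1 / 2 : ℚ) ^ s2 := by positivity
  have hn3 : (0 : ℚ) < (2 / 9 : ℚ) ^ s3 := by positivity
  have hn4 : (0 : ℚ) < (3 / 32 : ℚ) ^ s4 := by positivity
  have hn5 : (0 : ℚ) < (24 / 625 : ℚ) ^ s5 := by positivity
  have b45 : (3 / 32 : ℚ) ^ s4 * (24 / 625 : ℚ) ^ s5 ≤ 1 := mul_le_one₀ hp4 hn5.le hp5
  have b345 : (2 / 9 : ℚ) ^ s3 * ((3 / 32 : ℚ) ^ s4 * (24 / 625 : ℚ) ^ s5) ≤ 1 := mul_le_one₀ hp3 (by positivity) b45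
  have c2 : 12 / 625 ≤ (1 / 2 : ℚ) ^ s2 := by
    rw [← h]
    exact mul_le_of_le_one_right hn2.le b345
  have c345 : 12 / 625 ≤ (2 / 9 : ℚ) ^ s3 * ((3 / 32 : ℚ) ^ s4 * (24 / 625 : ℚ) ^ s5) := by
    rw [← h]
    exact mul_le_of_le_one_left (by positivity) hp2
  have c3 : 12 / 625 ≤ (2 / 9 : ℚ) ^ s3 := c345.trans (mul_le_of_le_one_right hn3.le b45)
  have c45 : 12 / 625 ≤ (3 / 32 : ℚ) ^ s4 * (24 / 625 : ℚ) ^ s5 := c345.trans (mul_le_of_le_one_left (by positivity) hp3)
  have c4 : 12 / 625 ≤ (3 / 32 : ℚ) ^ s4 := c45.trans (mul_le_of_le_one_right hn4.le hp5)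
  have c5 : 12 / 625 ≤ (24 / 625 : ℚ) ^ s5 := c45.trans (mul_le_of_le_one_left hn5.le hp4)
  have d2 : s2 < 6 := by
    by_contra hc
    push Not at hc
    have : (1 / 2 : ℚ) ^ s2 ≤ (1 / 2) ^ 6 := pow_le_pow_of_le_one (by norm_num) (by norm_num) hc
    norm_num at this
    linarith
  have d3 : s3 < 3 := by
    by_contra hc
    push Not at hc
    have : (2 / 9 : ℚ) ^ s3 ≤ (2 / 9) ^ 3 := pow_le_pow_of_le_one (by norm_num) (by norm_num) hc
    norm_num at this
    linarith
  have d4 : s4 < 2 := by
    by_contra hc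
    push Not at hc
    have : (3 / 32 : ℚ) ^ s4 ≤ (3 / 32) ^ 2 := pow_le_pow_of_le_one (by norm_num) (by norm_num) hc
    norm_num at this
    linarith
  have d5 : s5 < 2 := by
    by_contra hc
    push Not at hc
    have : (24 / 625 : ℚ) ^ s5 ≤ (24 / 625) ^ 2 := pow_le_pow_of_le_one (by norm_num) (by norm_num) hc
    norm_num at this
    linarith
  clear hp2 hp3 hp4 hp5 hn2 hn3 hn4 hn5 b45 b345 c2 c345 c3 c45 c4 c5
  interval_cases s2 <;> interval_cases s3 <;> interval_cases s4 <;> interval_cases s5 <;>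
    first
      | exact ⟨rfl, rfl, rfl, rfl⟩
      | (exfalso; norm_num at h)

section grp

variable {G : Type*} [Group G] [Finite G]

/-- Orbit sizes when the probability is `12 / 625`. -/
lemma sizes (H K : Subgroup G) (hHK : Nat.card H = Nat.card K) [Fintype (Dbl H K)] (hP : P H K = 12 / 625) :
    (∀ ω : Dbl H K, tt H K ω = 1 ∨ tt H K ω = 2 ∨ tt H K ω = 5) ∧
    ((Finset.univ : Finset (Dbl H K)).filter (fun ω => tt H K ω = 2)).card = 1 ∧
    ((Finset.univ : Finset (Dbl H K)).filter (fun ω => tt H K ω = 5)).card = 1 := by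
  classical
  have hle5 : ∀ ω : Dbl H K, tt H K ω ≤ 5 := by
    intro ω
    by_contra hcon
    push Not at hcon
    have h1 : P H K ≤ fac (tt H K ω) := by
      rw [P_fac H K hHK, ← Finset.mul_prod_erase Finset.univ _ (Finset.mem_univ ω)]
      exact mul_le_of_le_one_right (fac_nonneg _)
        (Finset.prod_le_one (fun _ _ => fac_nonneg _) (fun _ _ => fac_le_one _))
    have h2 := fac_anti (by omega : 6 ≤ tt H K ω)
    have h3 : fac 6 < 12 / 625 := by norm_num [fac, Nat.factorial]
    rw [hP] at h1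
    linarith
  have hS : ∀ ω : Dbl H K, tt H K ω ∈ ({1, 2, 3, 4, 5} : Finset ℕ) := by
    intro ω
    have := hle5 ω
    have := tt_pos H K ω
    simp only [Finset.mem_insert, Finset.mem_singleton]
    omega
  rw [P_by_size H K hHK _ hS, Finset.prod_insert (by decide), Finset.prod_insert (by decide),
    Finset.prod_insert (by decide), Finset.prod_insert (by decide), Finset.prod_singleton] at hP
  have h1 : fac 1 = 1 := by norm_num [fac]
  rw [h1, one_pow, one_mul] at hP
  obtain ⟨e2, e3, e4, e5⟩ := arith _ _ _ _ hP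
  refine ⟨fun ω => ?_, e2, e5⟩
  have h3 : tt H K ω ≠ 3 := by
    intro h
    rw [Finset.card_eq_zero, Finset.filter_eq_empty_iff] at e3
    exact e3 (Finset.mem_univ ω) h
  have h4 : tt H K ω ≠ 4 := by
    intro h
    rw [Finset.card_eq_zero, Finset.filter_eq_empty_iff] at e4
    exact e4 (Finset.mem_univ ω) h
  have := hle5 ω
  have := tt_pos H K ω
  omega

omit [Finite G] in
/-- The order of a subgroup divides the size of a set invariant under left multiplication. -/
lemma card_dvd_of_left_inv (M : Subgroup G) (Y : Set G) (h : ∀ m ∈ M, ∀ y ∈ Y, m * y ∈ Y) :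
    Nat.card M ∣ Nat.card Y := by
  have h1 : Nat.card Y = Nat.card ((QuotientGroup.mk : G → G ⧸ M) ⁻¹' ((QuotientGroup.mk : G → G ⧸ M) '' (Inv.inv ⁻¹' Y))) := by
    refine Nat.card_congr
      { toFun := fun y => ⟨y.1⁻¹, y.1⁻¹, by simp, rfl⟩
        invFun := fun z => ⟨z.1⁻¹, ?_⟩
        left_inv := fun y => by simp
        right_inv := fun z => by simp }
    obtain ⟨z, w, hw, hwz⟩ := z
    rw [QuotientGroup.eq] at hwz
    have : z⁻¹ = (w⁻¹ * z)⁻¹ * w⁻¹ := by group
    show z⁻¹ ∈ Y
    rw [this]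
    exact h _ (inv_mem hwz) _ hw
  rw [h1, QuotientGroup.card_preimage_mk]
  exact dvd_mul_right _ _

lemma tt_index (H K : Subgroup G) (y : G) :
    tt H K (cA H K (y : G ⧸ H)) = (MulAction.stabilizer K (y : G ⧸ H)).index := by
  have h1 := tt_mul H K (y : G ⧸ H)
  have h2 := Subgroup.card_mul_index (MulAction.stabilizer K (y : G ⧸ H))
  rw [← h2, mul_comm] at h1
  exact Nat.eq_of_mul_eq_mul_left Nat.card_pos h1

theorem no_value (H K : Subgroup G) (hHK : Nat.card H = Nat.card K) : P H K ≠ 12 / 625 := by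
  classical
  intro hP
  have := Fintype.ofFinite (Dbl H K)
  have := Fintype.ofFinite G
  obtain ⟨hsz, hs2, hs5⟩ := sizes H K hHK hP
  set f := ((Finset.univ : Finset (Dbl H K)).filter (fun ω => tt H K ω = 1)).card with hf
  let t : G → ℕ := fun y => tt H K (cA H K (y : G ⧸ H))
  have ht : ∀ y, t y = 1 ∨ t y = 2 ∨ t y = 5 := fun y => hsz _
  have hY1 : Nat.card {y : G // t y = 1} = Nat.card H * f := by
    have := card_size H K 1
    rw [one_mul] at this
    exact this.symm
  have hY2 : Nat.card {y : G // t y = 2} = Nat.card H * 2 := by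
    have := card_size H K 2
    rw [hs2] at this
    exact this.symm
  have hY5 : Nat.card {y : G // t y = 5} = Nat.card H * 5 := by
    have := card_size H K 5
    rw [hs5] at this
    exact this.symm
  have hHpos : 0 < Nat.card H := Nat.card_pos
  have hG : Nat.card G = Nat.card H * (f + 7) := by
    have h1 : Fintype.card G = ((Finset.univ : Finset G).filter (fun y => t y = 1)).card +
        (((Finset.univ : Finset G).filter (fun y => t y = 2)).card + ((Finset.univ : Finset G).filter (fun y => t y = 5)).card) := by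
      rw [← Finset.card_union_of_disjoint, ← Finset.card_union_of_disjoint, ← Finset.card_univ]
      · congr 1
        ext y
        simp only [Finset.mem_univ, Finset.mem_union, Finset.mem_filter, true_and, true_iff]
        exact ht y
      · rw [Finset.disjoint_left]
        intro y hy hy'
        simp only [Finset.mem_filter, Finset.mem_univ, true_and, Finset.mem_union] at hy hy'
        omega
      · rw [Finset.disjoint_left]
        intro y hy hy'
        simp only [Finset.mem_filter, Finset.mem_univ, true_and] at hy hy'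
        omega
    rw [Nat.card_eq_fintype_card, Fintype.card_subtype] at hY1 hY2 hY5
    rw [Nat.card_eq_fintype_card, h1, hY1, hY2, hY5]
    ring
  -- a point in the orbit of size two
  obtain ⟨y2, hy2⟩ : ∃ y, t y = 2 := by
    by_contra hcon
    push Not at hcon
    have : IsEmpty {y : G // t y = 2} := ⟨fun y => hcon y.1 y.2⟩
    rw [Nat.card_of_isEmpty] at hY2
    omega
  let Gb : Subgroup G := H.map (MulAut.conj y2).toMonoidHom
  have hGb : ∀ g, g ∈ Gb ↔ y2⁻¹ * g * y2 ∈ H := by
    intro g
    simp only [Gb, Subgroup.mem_map]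
    constructor
    · rintro ⟨h, hh, rfl⟩
      simpa [mul_assoc] using hh
    · intro h
      refine ⟨_, h, ?_⟩
      simp [mul_assoc]
  have hGbcard : Nat.card Gb = Nat.card H :=
    Nat.card_congr (Subgroup.equivMapOfInjective H _ (MulAut.conj y2).injective).symm.toEquiv
  let Kb : Subgroup G := K ⊓ Gb
  have hKbK : Kb ≤ K := inf_le_left
  have hKbG : Kb ≤ Gb := inf_le_right
  have hidx : (Kb.subgroupOf K).index = 2 := by
    rw [← hy2]
    show _ = tt H K (cA H K (y2 : G ⧸ H))
    rw [tt_index]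
    congr 1
    ext k
    rw [mem_stab, Subgroup.mem_subgroupOf]
    constructor
    · exact fun h => (hGb _).mp h.2
    · exact fun h => ⟨k.2, (hGb _).mpr h⟩
  have hcardKb : Nat.card Kb * 2 = Nat.card K := by
    have h1 := Subgroup.card_mul_index (Kb.subgroupOf K)
    rw [hidx, Nat.card_congr (Subgroup.subgroupOfEquivOfLe hKbK).toEquiv] at h1
    exact h1
  have hidx2 : (Kb.subgroupOf Gb).index = 2 := by
    have h1 := Subgroup.card_mul_index (Kb.subgroupOf Gb)
    rw [Nat.card_congr (Subgroup.subgroupOfEquivOfLe hKbG).toEquiv, hGbcard, hHK, ← hcardKb] at h1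
    exact Nat.eq_of_mul_eq_mul_left Nat.card_pos h1
  have hn1 : (Kb.subgroupOf K).Normal := Subgroup.normal_of_index_eq_two hidx
  have hn2 : (Kb.subgroupOf Gb).Normal := Subgroup.normal_of_index_eq_two hidx2
  let M : Subgroup G := Subgroup.normalizer (Kb : Set G)
  have hKM : K ≤ M := (Subgroup.normal_subgroupOf_iff_le_normalizer hKbK).mp hn1
  have hGM : Gb ≤ M := (Subgroup.normal_subgroupOf_iff_le_normalizer hKbG).mp hn2
  have hMmem : ∀ m ∈ M, ∀ k ∈ Kb, m⁻¹ * k * m ∈ Kb := by
    intro m hm k hk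
    have h1 := (Subgroup.mem_normalizer_iff.mp (inv_mem hm) k).mp hk
    rwa [inv_inv] at h1
  -- the fixed points of `Kb`
  let Y : Set G := {y | ∀ k ∈ Kb, y⁻¹ * k * y ∈ H}
  have hYinv : ∀ m ∈ M, ∀ y ∈ Y, m * y ∈ Y := by
    intro m hm y hy k hk
    have h1 := hy _ (hMmem m hm k hk)
    have h2 : (m * y)⁻¹ * k * (m * y) = y⁻¹ * (m⁻¹ * k * m) * y := by group
    rw [h2]
    exact h1
  have hYiff : ∀ y, y ∈ Y ↔ (t y = 1 ∨ t y = 2) := by
    intro y
    have hle : y ∈ Y ↔ Kb.subgroupOf K ≤ MulAction.stabilizer K (y : G ⧸ H) := by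
      constructor
      · intro hy k hk
        rw [mem_stab]
        exact hy _ (Subgroup.mem_subgroupOf.mp hk)
      · intro h k hk
        have h1 : (⟨k, hKbK hk⟩ : K) ∈ Kb.subgroupOf K := Subgroup.mem_subgroupOf.mpr hk
        exact (mem_stab H K _ y).mp (h h1)
    constructor
    · intro hy
      rcases ht y with h | h | h
      · exact Or.inl h
      · exact Or.inr h
      · exfalso
        have h1 := Subgroup.index_dvd_of_le (hle.mp hy)
        rw [hidx, ← tt_index] at h1
        have h2 : (5 : ℕ) ∣ 2 := h ▸ h1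
        omega
    · rintro (h | h)
      · rw [hle]
        have h1 : (MulAction.stabilizer K (y : G ⧸ H)).index = 1 := by rw [← tt_index]; exact h
        rw [Subgroup.index_eq_one] at h1
        rw [h1]
        exact le_top
      · have h1 : cA H K (y : G ⧸ H) = cA H K (y2 : G ⧸ H) := by
          obtain ⟨ω, hω⟩ := Finset.card_eq_one.mp hs2
          have e1 : cA H K (y : G ⧸ H) ∈ ({ω} : Finset (Dbl H K)) := by
            rw [← hω]; exact Finset.mem_filter.mpr ⟨Finset.mem_univ _, h⟩
          have e2 : cA H K (y2 : G ⧸ H) ∈ ({ω} : Finset (Dbl H K)) := by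
            rw [← hω]; exact Finset.mem_filter.mpr ⟨Finset.mem_univ _, hy2⟩
          rw [Finset.mem_singleton] at e1 e2
          rw [e1, e2]
        rw [cA_eq] at h1
        obtain ⟨k0, hk0⟩ := h1
        have h2 : (((k0 : G) * y2 : G) : G ⧸ H) = (y : G ⧸ H) := hk0
        rw [QuotientGroup.eq] at h2
        intro k hk
        have h3 := hMmem k0 (hKM k0.2) k hk
        have h4 := (hGb _).mp (hKbG h3)
        have h5 : y⁻¹ * k * y = (((k0 : G) * y2)⁻¹ * y)⁻¹ * (y2⁻¹ * ((k0 : G)⁻¹ * k * k0) * y2) * (((k0 : G) * y2)⁻¹ * y) := by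
          group
        rw [h5]
        exact mul_mem (mul_mem (inv_mem h2) h4) h2
  have hYcard : Nat.card Y = Nat.card H * (f + 2) := by
    have h1 : Nat.card Y = ((Finset.univ : Finset G).filter (fun y => t y = 1)).card +
        ((Finset.univ : Finset G).filter (fun y => t y = 2)).card := by
      rw [← Finset.card_union_of_disjoint, ← Finset.filter_or, ← Fintype.card_subtype, ← Nat.card_eq_fintype_card]
      · exact Nat.card_congr (Equiv.subtypeEquivRight hYiff)
      · rw [Finset.disjoint_left]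
        intro y hy hy'
        simp only [Finset.mem_filter, Finset.mem_univ, true_and] at hy hy'
        omega
    rw [Nat.card_eq_fintype_card, Fintype.card_subtype] at hY1 hY2
    rw [h1, hY1, hY2]
    ring
  have hd1 := card_dvd_of_left_inv M Y hYinv
  have hd2 : Nat.card M ∣ Nat.card G := Subgroup.card_subgroup_dvd_card M
  obtain ⟨m, hm⟩ : Nat.card K ∣ Nat.card M := Subgroup.card_dvd_of_le hKM
  rw [hYcard, hm, ← hHK] at hd1
  rw [hG, hm, ← hHK] at hd2
  have hm1 : m ∣ f + 2 := Nat.dvd_of_mul_dvd_mul_left hHpos hd1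
  have hm2 : m ∣ f + 7 := Nat.dvd_of_mul_dvd_mul_left hHpos hd2
  have hm5 : m ∣ 5 := by
    have := Nat.dvd_sub hm2 hm1
    have e : f + 7 - (f + 2) = 5 := by omega
    rwa [e] at this
  rcases (Nat.dvd_prime Nat.prime_five).mp hm5 with rfl | rfl
  · -- `M = K = Gb`
    rw [mul_one] at hm
    have e1 : K = M := Subgroup.eq_of_le_of_card_ge hKM hm.le
    have e2 : Gb = M := Subgroup.eq_of_le_of_card_ge hGM (by rw [hGbcard, hm, hHK])
    have e3 : MulAction.stabilizer K (y2 : G ⧸ H) = ⊤ := by
      rw [eq_top_iff]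
      intro k _
      rw [mem_stab, ← hGb, e2, ← e1]
      exact k.2
    have e4 : t y2 = 1 := by
      show tt H K (cA H K (y2 : G ⧸ H)) = 1
      rw [tt_index, e3, Subgroup.index_top]
    omega
  · -- `5 ∣ f + 2` and `f = 0` or `f ∣ 7`
    have hf7 : f = 0 ∨ f ∣ 7 := by
      rcases Nat.eq_zero_or_pos f with h0 | h0
      · exact Or.inl h0
      · right
        obtain ⟨y1, hy1⟩ : ∃ y, t y = 1 := by
          by_contra hcon
          push Not at hcon
          have : IsEmpty {y : G // t y = 1} := ⟨fun y => hcon y.1 y.2⟩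
          rw [Nat.card_of_isEmpty] at hY1
          have := Nat.mul_pos hHpos h0
          omega
        have h1iff : ∀ y, t y = 1 ↔ ∀ k ∈ K, y⁻¹ * k * y ∈ H := by
          intro y
          show tt H K (cA H K (y : G ⧸ H)) = 1 ↔ _
          rw [tt_index, Subgroup.index_eq_one, eq_top_iff]
          constructor
          · intro h k hk
            exact (mem_stab H K ⟨k, hk⟩ y).mp (h (Subgroup.mem_top _))
          · intro h k _
            rw [mem_stab]
            exact h _ k.2
        have hK1 := (h1iff y1).mp hy1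
        -- surjectivity
        have hmap : K.map (MulAut.conj y1⁻¹).toMonoidHom = H := by
          apply Subgroup.eq_of_le_of_card_ge
          · rintro _ ⟨k, hk, rfl⟩
            have := hK1 k hk
            simpa [mul_assoc] using this
          · rw [hHK]
            exact (Nat.card_congr (Subgroup.equivMapOfInjective K _ (MulAut.conj y1⁻¹).injective).toEquiv).le
        have hN : Nat.card {y : G // t y = 1} = Nat.card (Subgroup.normalizer (H : Set G)) := by
          refine Nat.card_congr
            { toFun := fun y => ⟨y1⁻¹ * y.1, ?_⟩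
              invFun := fun n => ⟨y1 * n.1, ?_⟩
              left_inv := fun y => by simp
              right_inv := fun n => by simp }
          · rw [← inv_mem_iff]
            apply Subgroup.mem_normalizer_fintype
            intro h hh
            have hh' : h ∈ K.map (MulAut.conj y1⁻¹).toMonoidHom := by rw [hmap]; exact hh
            obtain ⟨k, hk, hkh⟩ := hh'
            have h2 := (h1iff y.1).mp y.2 k hk
            have h3 : (y1⁻¹ * y.1)⁻¹ * h * (y1⁻¹ * y.1)⁻¹⁻¹ = (y.1)⁻¹ * k * y.1 := by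
              rw [← hkh]
              simp [mul_assoc]
            rw [h3]
            exact h2
          · rw [h1iff]
            intro k hk
            have h2 := hK1 k hk
            have h3 := (Subgroup.mem_normalizer_iff.mp (inv_mem n.2) _).mp h2
            have h4 : (y1 * n.1)⁻¹ * k * (y1 * n.1) = (n.1)⁻¹ * (y1⁻¹ * k * y1) * (n.1)⁻¹⁻¹ := by group
            rw [h4]
            exact h3
        have hdvd : Nat.card (Subgroup.normalizer (H : Set G)) ∣ Nat.card G := Subgroup.card_subgroup_dvd_card _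
        rw [← hN, hY1, hG] at hdvd
        have h5 := Nat.dvd_of_mul_dvd_mul_left hHpos hdvd
        exact (Nat.dvd_add_right (dvd_refl f)).mp h5
    rcases hf7 with h | h
    · omega
    · rcases (Nat.dvd_prime (by norm_num : Nat.Prime 7)).mp h with h | h <;> omega

end grp

/-- For the block sizes `1, 2, 5` the permanent of `T` is not a common transversal probability. -/
theorem result : ∃ (s : ℕ) (t : Fin s → ℕ), 1 ≤ s ∧ (∀ i, 1 ≤ t i) ∧ (∃ i, t i = 1) ∧
    ∀ (G : Type*) [Group G] [Finite G] (H K : Subgroup G), Nat.card H = Nat.card K →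
      P H K ≠ (T t).permanent := by
  refine ⟨3, ![1, 2, 5], by norm_num, ?_, ⟨0, rfl⟩, ?_⟩
  · intro i
    fin_cases i <;> simp
  · intro G _ _ H K hHK
    rw [permanent_125]
    exact no_value H K hHK

end Pool.Agent.Results.MP_e51b07_al.NoGroupValue
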